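import Pool.Agent.W336.LS.Intertwiner

set_option autoImplicit false

namespace Pool.Agent.W336.LS

open Module

universe u v w

variable {K : Type u} [Field K]

/-- rank of a linear map -/
noncomputable def rk {V : Type v} {W : Type w} [AddCommGroup V] [Module K V] [AddCommGroup W]
    [Module K W] (f : V →ₗ[K] W) : ℕ := finrank K (LinearMap.range f)

section
variable {V : Type v} {W : Type w} [AddCommGroup V] [Module K V] [AddCommGroup W] [Module K W]

lemma rk_add_le [FiniteDimensional K W] (f g : V →ₗ[K] W) : rk (f + g) ≤ rk f + rk g := by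
  unfold rk
  refine le_trans ?_ (Submodule.finrank_add_le_finrank_add_finrank _ _)
  apply Submodule.finrank_mono
  rintro _ ⟨x, rfl⟩
  rw [LinearMap.add_apply]
  exact Submodule.add_mem_sup ⟨x, rfl⟩ ⟨x, rfl⟩

lemma rk_comp_le {C : Type*} [AddCommGroup C] [Module K C] [FiniteDimensional K C]
    (k : V →ₗ[K] C) (h : C →ₗ[K] W) : rk (h ∘ₗ k) ≤ finrank K C := by
  unfold rk
  have h1 : LinearMap.range (h ∘ₗ k) ≤ LinearMap.range h := LinearMap.range_comp_le_range k h
  exact (Submodule.finrank_mono h1).trans (LinearMap.finrank_range_le h)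

lemma rk_neg (f : V →ₗ[K] W) : rk (-f) = rk f := by
  unfold rk; rw [LinearMap.range_neg]

lemma rk_add_ker [FiniteDimensional K V] (f : V →ₗ[K] W) :
    rk f + finrank K (LinearMap.ker f) = finrank K V :=
  LinearMap.finrank_range_add_finrank_ker f

lemma rk_le [FiniteDimensional K V] (f : V →ₗ[K] W) : rk f ≤ finrank K V :=
  LinearMap.finrank_range_le f

end

section
variable {V : Type v} [AddCommGroup V] [Module K V] [FiniteDimensional K V]

lemma rk_unit_mul (a : (End K V)ˣ) (f : End K V) : rk ((a : End K V) * f) = rk f := by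
  have h1 := rk_add_ker ((a : End K V) * f)
  have h2 := rk_add_ker f
  have h3 : LinearMap.ker ((a : End K V) * f) = LinearMap.ker f := by
    ext x
    rw [LinearMap.mem_ker, LinearMap.mem_ker, Module.End.mul_apply]
    constructor
    · intro h
      have := congrArg (fun y => ((a⁻¹ : (End K V)ˣ) : End K V) y) h
      simp only [map_zero] at this
      rwa [← Module.End.mul_apply, ← Units.val_mul, inv_mul_cancel, Units.val_one,
        Module.End.one_apply] at this
    · intro h; rw [h, map_zero]
  rw [h3] at h1
  omega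

omit [FiniteDimensional K V] in
lemma rk_mul_unit (a : (End K V)ˣ) (f : End K V) : rk (f * (a : End K V)) = rk f := by
  unfold rk
  have : LinearMap.range (f * (a : End K V)) = LinearMap.range f := by
    ext y
    constructor
    · rintro ⟨x, rfl⟩
      exact ⟨(a : End K V) x, rfl⟩
    · rintro ⟨x, rfl⟩
      refine ⟨((a⁻¹ : (End K V)ˣ) : End K V) x, ?_⟩
      rw [Module.End.mul_apply, ← Module.End.mul_apply (a : End K V), ← Units.val_mul,
        mul_inv_cancel, Units.val_one, Module.End.one_apply]
  rw [this]

/-- normalised rank distance -/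
noncomputable def dd (a b : End K V) : ℝ := (rk (a - b) : ℝ) / finrank K V

/-- direct sum with the identity -/
def T0 (V : Type v) [AddCommGroup V] [Module K V] :
    (End K V)ˣ →* (End K (V × V))ˣ where
  toFun a :=
    ⟨LinearMap.prodMap (a : End K V) 1, LinearMap.prodMap ((a⁻¹ : (End K V)ˣ) : End K V) 1, by
      rw [LinearMap.prodMap_mul, Units.mul_inv, one_mul, LinearMap.prodMap_one], by
      rw [LinearMap.prodMap_mul, Units.inv_mul, one_mul, LinearMap.prodMap_one]⟩
  map_one' := by
    apply Units.ext
    exact LinearMap.prodMap_one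
  map_mul' a b := by
    apply Units.ext
    change LinearMap.prodMap _ _ = LinearMap.prodMap _ _ * LinearMap.prodMap _ _
    rw [LinearMap.prodMap_mul, one_mul, Units.val_mul]

/-- conjugation action on endomorphisms -/
def Ad (V : Type v) [AddCommGroup V] [Module K V] :
    (End K V)ˣ →* (End K (End K V))ˣ where
  toFun a :=
    ⟨LinearMap.mulLeft K (a : End K V) ∘ₗ LinearMap.mulRight K ((a⁻¹ : (End K V)ˣ) : End K V),
     LinearMap.mulLeft K ((a⁻¹ : (End K V)ˣ) : End K V) ∘ₗ LinearMap.mulRight K (a : End K V), by
      apply LinearMap.ext; intro X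
      simp [mul_assoc], by
      apply LinearMap.ext; intro X
      simp [mul_assoc]⟩
  map_one' := by
    apply Units.ext; apply LinearMap.ext; intro X
    simp
  map_mul' a b := by
    apply Units.ext; apply LinearMap.ext; intro X
    simp [mul_assoc]

omit [FiniteDimensional K V] in
lemma Ad_apply (a : (End K V)ˣ) (X : End K V) :
    ((Ad V a : (End K (End K V))ˣ) : End K (End K V)) X =
      (a : End K V) * X * ((a⁻¹ : (End K V)ˣ) : End K V) := by
  simp [Ad, mul_assoc]


lemma rk_T0_sub (a b : (End K V)ˣ) :
    rk ((T0 V a : End K (V × V)) - (T0 V b : End K (V × V))) ≤ rk ((a : End K V) - (b : End K V)) := by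
  have h : (T0 V a : End K (V × V)) - (T0 V b : End K (V × V)) =
      (LinearMap.inl K V V ∘ₗ (LinearMap.range ((a : End K V) - (b : End K V))).subtype) ∘ₗ
        (((a : End K V) - (b : End K V)).rangeRestrict ∘ₗ LinearMap.fst K V V) := by
    apply LinearMap.ext
    rintro ⟨x, y⟩
    simp [T0]
  rw [h]
  exact rk_comp_le _ _

lemma rk_Ad_sub (a b : (End K V)ˣ) :
    rk ((Ad V a : End K (End K V)) - (Ad V b : End K (End K V))) ≤
      2 * finrank K V * rk ((a : End K V) - (b : End K V)) := by
  set c : End K V := (a : End K V) - (b : End K V) with hc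
  set d : End K V := ((a⁻¹ : (End K V)ˣ) : End K V) - ((b⁻¹ : (End K V)ˣ) : End K V) with hd
  have hrd : rk d = rk c := by
    have : d = -(((a⁻¹ : (End K V)ˣ) : End K V) * (c * ((b⁻¹ : (End K V)ˣ) : End K V))) := by
      rw [hc, hd, sub_mul, mul_sub, ← mul_assoc, Units.inv_mul, one_mul, Units.mul_inv, mul_one]
      abel
    rw [this, rk_neg, rk_unit_mul, rk_mul_unit]
  -- first part
  let A1 : End K (End K V) := LinearMap.mulLeft K c ∘ₗ
    LinearMap.mulRight K ((a⁻¹ : (End K V)ˣ) : End K V)
  let A2 : End K (End K V) := LinearMap.mulLeft K (b : End K V) ∘ₗ LinearMap.mulRight K d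
  have hsum : (Ad V a : End K (End K V)) - (Ad V b : End K (End K V)) = A1 + A2 := by
    apply LinearMap.ext
    intro X
    rw [LinearMap.sub_apply, Ad_apply, Ad_apply, LinearMap.add_apply]
    simp only [A1, A2, LinearMap.comp_apply, LinearMap.mulLeft_apply, LinearMap.mulRight_apply]
    rw [hc, hd]
    noncomm_ring
  have h1 : rk A1 ≤ finrank K V * rk c := by
    let k : End K V →ₗ[K] (V →ₗ[K] LinearMap.range c) :=
      { toFun := fun X => c.rangeRestrict ∘ₗ (X * ((a⁻¹ : (End K V)ˣ) : End K V))
        map_add' := fun X Y => by rw [add_mul, LinearMap.comp_add]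
        map_smul' := fun t X => by
          rw [smul_mul_assoc, LinearMap.comp_smul]; rfl }
    let h : (V →ₗ[K] LinearMap.range c) →ₗ[K] End K V :=
      { toFun := fun Y => (LinearMap.range c).subtype ∘ₗ Y
        map_add' := fun X Y => by rw [LinearMap.comp_add]
        map_smul' := fun t X => by rw [LinearMap.comp_smul]; rfl }
    have hA : A1 = h ∘ₗ k := by
      apply LinearMap.ext; intro X; apply LinearMap.ext; intro x
      rfl
    rw [hA]
    refine (rk_comp_le k h).trans (le_of_eq ?_)
    rw [Module.finrank_linearMap]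
    rfl
  have h2 : rk A2 ≤ finrank K V * rk c := by
    let k : End K V →ₗ[K] (LinearMap.range d →ₗ[K] V) :=
      { toFun := fun X => (X ∘ₗ (LinearMap.range d).subtype)
        map_add' := fun X Y => by rw [LinearMap.add_comp]
        map_smul' := fun t X => by rw [LinearMap.smul_comp]; rfl }
    let h : (LinearMap.range d →ₗ[K] V) →ₗ[K] End K V :=
      { toFun := fun Y => (b : End K V) ∘ₗ (Y ∘ₗ d.rangeRestrict)
        map_add' := fun X Y => by rw [LinearMap.add_comp, LinearMap.comp_add]
        map_smul' := fun t X => by rw [LinearMap.smul_comp, LinearMap.comp_smul]; rfl }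
    have hA : A2 = h ∘ₗ k := by
      apply LinearMap.ext; intro X; apply LinearMap.ext; intro x
      rfl
    rw [hA]
    refine (rk_comp_le k h).trans (le_of_eq ?_)
    rw [Module.finrank_linearMap, ← hrd, mul_comm]
    rfl
  rw [hsum]
  refine (rk_add_le A1 A2).trans ?_
  nlinarith

omit [FiniteDimensional K V] in
lemma T0_sub_apply (u : (End K V)ˣ) (c : K) (x : V × V) :
    ((T0 V u : End K (V × V)) - algebraMap K (End K (V × V)) c) x =
      (((u : End K V) - algebraMap K (End K V) c) x.1,
        ((1 : End K V) - algebraMap K (End K V) c) x.2) := by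
  apply Prod.ext <;> simp [T0]

lemma ker_T0 (u : (End K V)ˣ) (c : K) :
    finrank K (LinearMap.ker ((T0 V u : End K (V × V)) - algebraMap K (End K (V × V)) c)) ≤
      finrank K (LinearMap.ker ((u : End K V) - algebraMap K (End K V) c)) +
        finrank K (LinearMap.ker ((1 : End K V) - algebraMap K (End K V) c)) := by
  rw [← Module.finrank_prod]
  let Φ : LinearMap.ker ((T0 V u : End K (V × V)) - algebraMap K (End K (V × V)) c) →ₗ[K]
      (LinearMap.ker ((u : End K V) - algebraMap K (End K V) c) ×
        LinearMap.ker ((1 : End K V) - algebraMap K (End K V) c)) :=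
    { toFun := fun x => (⟨x.1.1, by
          have h := LinearMap.mem_ker.1 x.2
          rw [T0_sub_apply] at h
          exact LinearMap.mem_ker.2 (congrArg Prod.fst h)⟩, ⟨x.1.2, by
          have h := LinearMap.mem_ker.1 x.2
          rw [T0_sub_apply] at h
          exact LinearMap.mem_ker.2 (congrArg Prod.snd h)⟩)
      map_add' := fun x y => rfl
      map_smul' := fun c x => rfl }
  apply LinearMap.finrank_le_finrank_of_injective (f := Φ)
  intro x y hxy
  apply Subtype.ext
  have h1 := congrArg (fun z => (z.1 : V)) hxy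
  have h2 := congrArg (fun z => (z.2 : V)) hxy
  exact Prod.ext h1 h2

omit [FiniteDimensional K V] in
lemma ker_one_sub {c : K} (hc : c ≠ 1) :
    finrank K (LinearMap.ker ((1 : End K V) - algebraMap K (End K V) c)) = 0 := by
  have : LinearMap.ker ((1 : End K V) - algebraMap K (End K V) c) = ⊥ := by
    rw [LinearMap.ker_eq_bot']
    intro x hx
    rw [LinearMap.sub_apply, Module.End.one_apply, Module.algebraMap_end_apply] at hx
    have h1 : (1 - c) • x = 0 := by rw [sub_smul, one_smul]; exact hx
    exact (smul_eq_zero.1 h1).resolve_left (sub_ne_zero.2 (Ne.symm hc))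
  rw [this, finrank_bot]

lemma ker_Ad (u : (End K V)ˣ) {c : K} (hc : c ≠ 0) (n : ℕ) (hn : finrank K V = n) (M : ℝ)
    (hM : 1 / 2 ≤ M)
    (hu : ∀ c : K, (finrank K (LinearMap.ker ((u : End K V) - algebraMap K (End K V) c)) : ℝ) ≤
      M * n) :
    (finrank K (LinearMap.ker ((Ad V u : End K (End K V)) -
      algebraMap K (End K (End K V)) c)) : ℝ) ≤ (M ^ 2 + (1 - M) ^ 2) * n ^ 2 := by
  have h1 : LinearMap.ker ((Ad V u : End K (End K V)) - algebraMap K (End K (End K V)) c) =
      inter (u : End K V) (c • (u : End K V)) := by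
    ext X
    rw [LinearMap.mem_ker, LinearMap.sub_apply, Ad_apply, Module.algebraMap_end_apply, sub_eq_zero,
      mem_inter]
    change _ ↔ (u : End K V) * X = X * (c • (u : End K V))
    constructor
    · intro h
      have := congrArg (fun Y => Y * (u : End K V)) h
      simp only [mul_assoc, Units.inv_mul, mul_one] at this
      rw [this, smul_mul_assoc, mul_smul_comm]
    · intro h
      rw [h, mul_assoc, smul_mul_assoc, Units.mul_inv, mul_smul_comm, mul_one]
  rw [h1]
  refine finrank_inter_le (u : End K V) (c • (u : End K V)) n hn hn M hM hu ?_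
  intro d
  have h2 : LinearMap.ker (c • (u : End K V) - algebraMap K (End K V) d) =
      LinearMap.ker ((u : End K V) - algebraMap K (End K V) (c⁻¹ * d)) := by
    ext x
    rw [LinearMap.mem_ker, LinearMap.mem_ker, LinearMap.sub_apply, LinearMap.sub_apply,
      LinearMap.smul_apply, Module.algebraMap_end_apply, Module.algebraMap_end_apply, sub_eq_zero,
      sub_eq_zero, mul_smul]
    constructor
    · intro h
      rw [← h, smul_smul, inv_mul_cancel₀ hc, one_smul]
    · intro h
      rw [h, smul_smul, mul_inv_cancel₀ hc, one_smul]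
  rw [h2]
  exact hu _

omit [FiniteDimensional K V] in
lemma ker_Ad_zero (u : (End K V)ˣ) :
    finrank K (LinearMap.ker ((u : End K V) - algebraMap K (End K V) 0)) = 0 := by
  have : LinearMap.ker ((u : End K V) - algebraMap K (End K V) 0) = ⊥ := by
    rw [LinearMap.ker_eq_bot']
    intro x hx
    rw [map_zero, sub_zero] at hx
    have := congrArg (fun y => ((u⁻¹ : (End K V)ˣ) : End K V) y) hx
    simp only [map_zero] at this
    rwa [← Module.End.mul_apply, Units.inv_mul, Module.End.one_apply] at this
  rw [this, finrank_bot]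

end

end Pool.Agent.W336.LS
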