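import Pool.Agent.W336.LS.Struct

set_option autoImplicit false

namespace Pool.Agent.W336.LS

open Polynomial Module

universe u v w

variable {K : Type u} [Field K]

/-- The space of intertwiners `{X : f X = X g}`. -/
def inter {V : Type v} {W : Type w} [AddCommGroup V] [Module K V] [AddCommGroup W] [Module K W]
    (f : V →ₗ[K] V) (g : W →ₗ[K] W) : Submodule K (W →ₗ[K] V) where
  carrier := {X | f ∘ₗ X = X ∘ₗ g}
  add_mem' := by
    intro a b ha hb
    simp only [Set.mem_ofPred_eq] at *
    rw [LinearMap.comp_add, LinearMap.add_comp, ha, hb]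
  zero_mem' := by simp
  smul_mem' := by
    intro c a ha
    simp only [Set.mem_ofPred_eq] at *
    rw [LinearMap.comp_smul, LinearMap.smul_comp, ha]

lemma mem_inter {V : Type v} {W : Type w} [AddCommGroup V] [Module K V] [AddCommGroup W]
    [Module K W] {f : V →ₗ[K] V} {g : W →ₗ[K] W} {X : W →ₗ[K] V} :
    X ∈ inter f g ↔ f ∘ₗ X = X ∘ₗ g := Iff.rfl

lemma inter_aeval {V : Type v} {W : Type w} [AddCommGroup V] [Module K V] [AddCommGroup W]
    [Module K W] {f : V →ₗ[K] V} {g : W →ₗ[K] W} {X : W →ₗ[K] V} (hX : X ∈ inter f g)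
    (q : K[X]) (x : W) : aeval f q (X x) = X (aeval g q x) := by
  induction q using Polynomial.induction_on' generalizing x with
  | add p q hp hq =>
    rw [map_add, map_add, LinearMap.add_apply, LinearMap.add_apply, map_add, hp, hq]
  | monomial n a =>
    rw [aeval_monomial, aeval_monomial, Module.End.mul_apply, Module.End.mul_apply,
      Module.algebraMap_end_apply, Module.algebraMap_end_apply, map_smul]
    congr 1
    induction n generalizing x with
    | zero => simp
    | succ n ih =>
      rw [pow_succ, pow_succ, Module.End.mul_apply, Module.End.mul_apply]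
      have : f (X x) = X (g x) := congrArg (fun T : W →ₗ[K] V => T x) hX
      rw [this, ih]

section

variable {V : Type v} [AddCommGroup V] [Module K V] [FiniteDimensional K V]

/-- numerical data: the dimension of the space of intertwiners is bounded by local terms -/
lemma inter_bound {W : Type w} [AddCommGroup W] [Module K W] [FiniteDimensional K W]
    (f : V →ₗ[K] V) (g : W →ₗ[K] W) :
    ∃ (ι : Type u) (_ : Fintype ι) (p : ι → K[X]) (e : ι → ℕ),
      (∀ i, Irreducible (p i)) ∧
      (∑ i, e i * (p i).natDegree = finrank K W) ∧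
      (∀ (c : K) (S : Finset ι), (∀ i ∈ S, 1 ≤ e i ∧ (p i).natDegree = 1 ∧ (p i).IsRoot c) →
        S.card ≤ finrank K (LinearMap.ker (g - algebraMap K (End K W) c))) ∧
      finrank K (inter f g) ≤ ∑ i, finrank K (LinearMap.ker (aeval f (p i ^ e i))) := by
  obtain ⟨ι, fι, p, e, x, hp, hx, hgen, hsum, hcard⟩ := exists_cyclic g
  refine ⟨ι, fι, p, e, hp, hsum, hcard, ?_⟩
  rw [← Module.finrank_pi_fintype K]
  let Φ : inter f g →ₗ[K] (∀ i, LinearMap.ker (aeval f (p i ^ e i))) :=
    { toFun := fun X i => ⟨X.1 (x i), by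
        rw [LinearMap.mem_ker, inter_aeval X.2, hx, map_zero]⟩
      map_add' := fun X Y => by ext i; rfl
      map_smul' := fun c X => by ext i; rfl }
  apply LinearMap.finrank_le_finrank_of_injective (f := Φ)
  rw [← LinearMap.ker_eq_bot, LinearMap.ker_eq_bot']
  intro X hX
  apply Subtype.ext
  apply LinearMap.ext
  intro w
  obtain ⟨r, hr⟩ := hgen w
  have h0 : ∀ i, X.1 (x i) = 0 := fun i => congrArg Subtype.val (congrFun hX i)
  rw [hr, map_sum]
  change _ = (0 : W →ₗ[K] V) _
  rw [LinearMap.zero_apply]
  apply Finset.sum_eq_zero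
  intro i _
  rw [← inter_aeval X.2, h0, map_zero]

/-- an irreducible polynomial of degree one with root `c` is a multiple of `X - c` -/
lemma deg_one_eq {p : K[X]} (hp : Irreducible p) (h2 : p.natDegree = 1) {c : K}
    (h3 : p.IsRoot c) : p = C p.leadingCoeff * (X - C c) := by
  have hdvd : (X - C c) ∣ p := dvd_iff_isRoot.2 h3
  obtain ⟨q, hq⟩ := hdvd
  have hq0 : q ≠ 0 := by
    rintro rfl
    rw [mul_zero] at hq
    exact hp.ne_zero hq
  have hd : q.natDegree = 0 := by
    have := congrArg natDegree hq
    rw [natDegree_mul (X_sub_C_ne_zero c) hq0, natDegree_X_sub_C, h2] at this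
    omega
  obtain ⟨a, ha⟩ := natDegree_eq_zero.1 hd
  rw [← ha] at hq
  have hl : p.leadingCoeff = a := by
    rw [hq, leadingCoeff_mul, leadingCoeff_X_sub_C, one_mul, leadingCoeff_C]
  rw [hl]
  rw [hq, mul_comm]

omit [FiniteDimensional K V] in
lemma ker_aeval_deg_one (f : V →ₗ[K] V) {p : K[X]} (hp : Irreducible p) (h2 : p.natDegree = 1)
    {c : K} (h3 : p.IsRoot c) (e : ℕ) :
    LinearMap.ker (aeval f (p ^ e)) =
      LinearMap.ker ((f - algebraMap K (End K V) c) ^ e) := by
  have hlc : p.leadingCoeff ≠ 0 := leadingCoeff_ne_zero.2 hp.ne_zero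
  ext x
  rw [LinearMap.mem_ker, LinearMap.mem_ker]
  rw [deg_one_eq hp h2 h3]
  rw [mul_pow, map_mul, map_pow, aeval_C, map_pow, map_sub, aeval_X, aeval_C,
    Module.End.mul_apply, ← map_pow, Module.algebraMap_end_apply, smul_eq_zero]
  constructor
  · rintro (h | h)
    · exact absurd h (pow_ne_zero _ (by simpa using hlc))
    · exact h
  · intro h; exact Or.inr h

lemma ker_le_finrank (T : V →ₗ[K] V) : finrank K (LinearMap.ker T) ≤ finrank K V :=
  Submodule.finrank_le _

/-- **Key lemma.** If all eigenspaces of `f` and of `g` have dimension at most `M n`, `M ≥ 1/2`,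
then the space of intertwiners has dimension at most `(M² + (1 - M)²) n²`. -/
theorem finrank_inter_le {W : Type w} [AddCommGroup W] [Module K W] [FiniteDimensional K W]
    (f : V →ₗ[K] V) (g : W →ₗ[K] W) (n : ℕ) (hV : finrank K V = n) (hW : finrank K W = n)
    (M : ℝ) (hM : 1 / 2 ≤ M)
    (hf : ∀ c : K, (finrank K (LinearMap.ker (f - algebraMap K (End K V) c)) : ℝ) ≤ M * n)
    (hg : ∀ c : K, (finrank K (LinearMap.ker (g - algebraMap K (End K W) c)) : ℝ) ≤ M * n) :
    (finrank K (inter f g) : ℝ) ≤ (M ^ 2 + (1 - M) ^ 2) * n ^ 2 := by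
  classical
  obtain ⟨ι, fι, p, e, hp, hsum, hcard, hle⟩ := inter_bound f g
  rw [hW] at hsum
  have hdeg : ∀ i, 1 ≤ (p i).natDegree := fun i => (hp i).natDegree_pos
  have hle' : (finrank K (inter f g) : ℝ) ≤
      ∑ i, (finrank K (LinearMap.ker (aeval f (p i ^ e i))) : ℝ) := by exact_mod_cast hle
  have hsum' : ∑ i, (e i * (p i).natDegree : ℝ) = n := by exact_mod_cast hsum
  -- blocks of size zero
  have hzero : ∀ i, e i = 0 → finrank K (LinearMap.ker (aeval f (p i ^ e i))) = 0 := by
    intro i hi
    rw [hi, pow_zero, map_one]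
    have : LinearMap.ker (1 : End K V) = ⊥ := by
      ext x; simp
    rw [this, finrank_bot]
  by_cases hA : ∀ c : K, 2 * (finrank K (LinearMap.ker (f - algebraMap K (End K V) c)) : ℝ) ≤ n
  · -- no big eigenvalue
    have hterm : ∀ i, 2 * (finrank K (LinearMap.ker (aeval f (p i ^ e i))) : ℝ) ≤
        (e i * (p i).natDegree : ℝ) * n := by
      intro i
      have htriv : (finrank K (LinearMap.ker (aeval f (p i ^ e i))) : ℝ) ≤ n := by
        have := ker_le_finrank (aeval f (p i ^ e i))
        rw [hV] at this
        exact_mod_cast this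
      have hn : (0 : ℝ) ≤ n := Nat.cast_nonneg n
      rcases Nat.eq_zero_or_pos (e i) with h0 | h0
      · rw [hzero i h0, h0]; simp
      · by_cases h2 : 2 ≤ e i * (p i).natDegree
        · have : (2 : ℝ) ≤ (e i * (p i).natDegree : ℝ) := by exact_mod_cast h2
          nlinarith
        · have h3 : e i = 1 ∧ (p i).natDegree = 1 := by
            have := hdeg i
            constructor
            · by_contra hne
              have : 2 ≤ e i := by omega
              exact h2 (by nlinarith)
            · by_contra hne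
              have : 2 ≤ (p i).natDegree := by omega
              exact h2 (by nlinarith)
          obtain ⟨c, hc⟩ := exists_root_of_degree_eq_one
            (degree_eq_iff_natDegree_eq_of_pos one_pos |>.2 h3.2)
          rw [ker_aeval_deg_one f (hp i) h3.2 hc, h3.1, h3.2, pow_one]
          have := hA c
          simpa using this
    have h1 : 2 * (finrank K (inter f g) : ℝ) ≤ n ^ 2 := by
      calc 2 * (finrank K (inter f g) : ℝ)
          ≤ 2 * ∑ i, (finrank K (LinearMap.ker (aeval f (p i ^ e i))) : ℝ) := by linarith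
        _ = ∑ i, 2 * (finrank K (LinearMap.ker (aeval f (p i ^ e i))) : ℝ) := by
            rw [Finset.mul_sum]
        _ ≤ ∑ i, (e i * (p i).natDegree : ℝ) * n := Finset.sum_le_sum fun i _ => hterm i
        _ = n ^ 2 := by rw [← Finset.sum_mul, hsum', sq]
    nlinarith [sq_nonneg (M - 1 / 2), sq_nonneg ((n : ℝ) * (2 * M - 1)), sq_nonneg (n : ℝ)]
  · push Not at hA
    obtain ⟨c, hc⟩ := hA
    set T := f - algebraMap K (End K V) c with hT
    set α := finrank K (LinearMap.ker T) with hα
    set β := finrank K (LinearMap.ker (T ^ n)) with hβ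
    have hn0 : 0 < n := by
      rcases Nat.eq_zero_or_pos n with h | h
      · exfalso
        have : α ≤ n := by rw [hα, ← hV]; exact ker_le_finrank _
        rw [h] at this hc
        have h0 : α = 0 := by omega
        rw [h0] at hc
        simp at hc
      · exact h
    have hαβ : α ≤ β := by
      apply Submodule.finrank_mono
      intro x hx
      rw [LinearMap.mem_ker] at hx ⊢
      obtain ⟨m, rfl⟩ : ∃ m, n = m + 1 := ⟨n - 1, by omega⟩
      rw [pow_succ, Module.End.mul_apply, hx, map_zero]
    have hβn : β ≤ n := by rw [hβ, ← hV]; exact ker_le_finrank _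
    let S : Finset ι := Finset.univ.filter
      (fun i => 1 ≤ e i ∧ (p i).natDegree = 1 ∧ (p i).IsRoot c)
    have hScard : (S.card : ℝ) ≤ M * n := by
      refine le_trans ?_ (hg c)
      exact_mod_cast hcard c S (fun i hi => (Finset.mem_filter.1 hi).2)
    have hSterm : ∀ i ∈ S, (finrank K (LinearMap.ker (aeval f (p i ^ e i))) : ℝ) ≤
        α + ((e i * (p i).natDegree : ℝ) - 1) * (β - α) := by
      intro i hi
      obtain ⟨h1, h2, h3⟩ := (Finset.mem_filter.1 hi).2
      rw [ker_aeval_deg_one f (hp i) h2 h3, h2]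
      have hαβ' : (α : ℝ) ≤ β := by exact_mod_cast hαβ
      rcases Nat.lt_or_ge 1 (e i) with h4 | h4
      · have h5 : (finrank K (LinearMap.ker (T ^ e i)) : ℝ) ≤ β := by
          have : LinearMap.ker (T ^ e i) ≤ LinearMap.ker (T ^ n) := by
            rw [← hV]
            exact Module.End.ker_pow_le_ker_pow_finrank T (e i)
          exact_mod_cast Submodule.finrank_mono this
        have h6 : (2 : ℝ) ≤ e i := by exact_mod_cast h4
        push_cast
        nlinarith
      · have : e i = 1 := by omega
        rw [this, pow_one, ← hT, ← hα]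
        simp
    have hNterm : ∀ i ∉ S, (finrank K (LinearMap.ker (aeval f (p i ^ e i))) : ℝ) ≤
        (e i * (p i).natDegree : ℝ) * (n - β) := by
      intro i hi
      have hβn' : (β : ℝ) ≤ n := by exact_mod_cast hβn
      rcases Nat.eq_zero_or_pos (e i) with h0 | h0
      · rw [hzero i h0, h0]; simp
      · have hnr : ¬ ((p i).natDegree = 1 ∧ (p i).IsRoot c) := by
          intro h
          exact hi (Finset.mem_filter.2 ⟨Finset.mem_univ _, h0, h.1, h.2⟩)
        have hcop : IsCoprime (p i) (X - C c) := by
          rw [Irreducible.coprime_iff_not_dvd (hp i)]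
          intro hd
          have h1 : (p i).natDegree ≤ 1 := by
            have := natDegree_le_of_dvd hd (X_sub_C_ne_zero c)
            rwa [natDegree_X_sub_C] at this
          have h2 : (p i).natDegree = 1 := le_antisymm h1 (hdeg i)
          obtain ⟨d, hd'⟩ := exists_root_of_degree_eq_one
            (degree_eq_iff_natDegree_eq_of_pos one_pos |>.2 h2)
          have h3 : (X - C c).IsRoot d := IsRoot.dvd hd' hd
          rw [IsRoot, eval_sub, eval_X, eval_C, sub_eq_zero] at h3
          exact hnr ⟨h2, h3 ▸ hd'⟩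
        have hdis := Polynomial.disjoint_ker_aeval_of_isCoprime f (IsCoprime.pow (m := e i) (n := n) hcop)
        have h1 : LinearMap.ker (aeval f ((X - C c) ^ n)) = LinearMap.ker (T ^ n) := by
          rw [map_pow, map_sub, aeval_X, aeval_C]
        rw [h1] at hdis
        have h2 := Submodule.finrank_add_finrank_le_of_disjoint hdis
        rw [hV] at h2
        have h3 : (finrank K (LinearMap.ker (aeval f (p i ^ e i))) : ℝ) + β ≤ n := by
          exact_mod_cast h2
        have h4 : (1 : ℝ) ≤ e i * (p i).natDegree := by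
          have := hdeg i
          have h5 : 1 ≤ e i * (p i).natDegree := Nat.one_le_iff_ne_zero.2
            (Nat.mul_ne_zero (by omega) (by omega))
          exact_mod_cast h5
        nlinarith
    set w : ℝ := ∑ i ∈ S, (e i * (p i).natDegree : ℝ) with hw
    have hwn : w + ∑ i ∈ Sᶜ, (e i * (p i).natDegree : ℝ) = n := by
      rw [hw, Finset.sum_add_sum_compl, hsum']
    have hbound : (finrank K (inter f g) : ℝ) ≤
        S.card * α + (w - S.card) * (β - α) + (n - w) * (n - β) := by
      refine hle'.trans ?_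
      rw [← Finset.sum_add_sum_compl S]
      have h1 : ∑ i ∈ S, (finrank K (LinearMap.ker (aeval f (p i ^ e i))) : ℝ) ≤
          S.card * α + (w - S.card) * (β - α) := by
        refine (Finset.sum_le_sum hSterm).trans (le_of_eq ?_)
        rw [Finset.sum_add_distrib, ← Finset.sum_mul, Finset.sum_sub_distrib]
        simp only [Finset.sum_const, nsmul_eq_mul, mul_one]
        rw [hw]
      have h2 : ∑ i ∈ Sᶜ, (finrank K (LinearMap.ker (aeval f (p i ^ e i))) : ℝ) ≤
          (n - w) * (n - β) := by
        refine (Finset.sum_le_sum fun i hi => hNterm i (Finset.mem_compl.1 hi)).trans ?_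
        rw [← Finset.sum_mul]
        have : ∑ i ∈ Sᶜ, (e i * (p i).natDegree : ℝ) = n - w := by linarith
        rw [this]
      linarith
    have hwS : (S.card : ℝ) ≤ w := by
      rw [hw]
      have : (S.card : ℝ) = ∑ i ∈ S, (1 : ℝ) := by simp
      rw [this]
      refine Finset.sum_le_sum fun i hi => ?_
      obtain ⟨h1, h2, h3⟩ := (Finset.mem_filter.1 hi).2
      rw [h2]
      have : (1 : ℝ) ≤ e i := by exact_mod_cast h1
      simpa using this
    have hwn' : w ≤ n := by
      have : 0 ≤ ∑ i ∈ Sᶜ, (e i * (p i).natDegree : ℝ) :=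
        Finset.sum_nonneg fun i _ => by positivity
      linarith
    have hfc := hf c
    have hαr : (α : ℝ) ≤ β := by exact_mod_cast hαβ
    have hβr : (β : ℝ) ≤ n := by exact_mod_cast hβn
    have hS0 : (0 : ℝ) ≤ S.card := Nat.cast_nonneg _
    have hnr : (0 : ℝ) ≤ n := Nat.cast_nonneg _
    -- x y + x' y' ≤ (x + x') (y + y')
    have h1 : (w - S.card) * ((β : ℝ) - α) + (n - w) * (n - β) ≤ (n - S.card) * (n - α) := by
      nlinarith [mul_nonneg (sub_nonneg.2 hwS) (sub_nonneg.2 hβr),
        mul_nonneg (sub_nonneg.2 hwn') (sub_nonneg.2 hαr)]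
    have h2 : (S.card : ℝ) * α + (n - S.card) * (n - α) ≤
        (M * n) * α + (n - M * n) * (n - α) := by
      have h3 : 0 ≤ 2 * (α : ℝ) - n := by linarith
      nlinarith [mul_nonneg (sub_nonneg.2 hScard) h3]
    have h4 : (M * n) * α + (n - M * n) * (n - α) ≤ (M * n) * (M * n) + (n - M * n) * (n - M * n) := by
      have h5 : 0 ≤ M * n - (n - M * n) := by nlinarith
      nlinarith [mul_nonneg (sub_nonneg.2 hfc) h5]
    calc (finrank K (inter f g) : ℝ) ≤ _ := hbound
      _ ≤ (S.card : ℝ) * α + (n - S.card) * (n - α) := by linarith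
      _ ≤ _ := h2
      _ ≤ _ := h4
      _ = (M ^ 2 + (1 - M) ^ 2) * n ^ 2 := by ring

end

end Pool.Agent.W336.LS
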