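import Pool.Agent.W336.LS.Amplify

set_option autoImplicit false

namespace Pool.Agent.W336.LS

open Module

universe u v w

variable {K : Type u} [Field K] {W : Type v} [AddCommGroup W] [Module K W] [FiniteDimensional K W]

omit [FiniteDimensional K W] in
lemma rk_zero : rk (0 : End K W) = 0 := by
  unfold rk
  rw [LinearMap.range_zero, finrank_bot]

lemma rk_smul_le (t : K) (f : End K W) : rk (t • f) ≤ rk f := by
  unfold rk
  apply Submodule.finrank_mono
  rintro _ ⟨x, rfl⟩
  exact ⟨t • x, by simp⟩

lemma rk_split {P E : End K W} (hP : P * P = P) (hc : P * E = E * P) :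
    rk (P * E) + rk ((1 - P) * E) ≤ rk E := by
  unfold rk
  have hdis : Disjoint (LinearMap.range (P * E)) (LinearMap.range ((1 - P) * E)) := by
    rw [Submodule.disjoint_def]
    rintro x ⟨y, rfl⟩ ⟨z, hz⟩
    have h1 : P ((P * E) y) = (P * E) y := by
      rw [← Module.End.mul_apply, ← mul_assoc, hP]
    have h2 : P ((P * E) y) = 0 := by
      rw [← hz, ← Module.End.mul_apply, ← mul_assoc, mul_sub, mul_one, hP, sub_self, zero_mul,
        LinearMap.zero_apply]
    rw [← h1, h2]
  have h3 : LinearMap.range (P * E) ⊔ LinearMap.range ((1 - P) * E) ≤ LinearMap.range E := by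
    apply sup_le
    · rintro _ ⟨x, rfl⟩
      rw [hc]
      exact ⟨P x, rfl⟩
    · rintro _ ⟨x, rfl⟩
      rw [sub_mul, one_mul, hc]
      exact ⟨x - P x, by simp⟩
  have h4 := Submodule.finrank_sup_add_finrank_inf_eq (LinearMap.range (P * E))
    (LinearMap.range ((1 - P) * E))
  rw [disjoint_iff.1 hdis, finrank_bot, add_zero] at h4
  rw [← h4]
  exact Submodule.finrank_mono h3

/-- elementary abelian 2-groups, characteristic not two -/
lemma avg_odd (h2 : (2 : K) ≠ 0) : ∀ (k : ℕ) (ρ : (Fin k → ℤˣ) →* End K W) (E : End K W),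
    E * E = E → (∀ g, ρ g * E = E * ρ g) →
      2 * ∑ g, rk ((ρ g - 1) * E) ≤ 2 ^ k * rk E := by
  intro k
  induction k with
  | zero =>
    intro ρ E hE hcomm
    have : ∀ g : Fin 0 → ℤˣ, rk ((ρ g - 1) * E) = 0 := by
      intro g
      have : g = 1 := Subsingleton.elim _ _
      rw [this, map_one, sub_self, zero_mul, rk_zero]
    simp [this]
  | succ k ih =>
    intro ρ E hE hcomm
    let ι : (Fin k → ℤˣ) →* (Fin (k + 1) → ℤˣ) :=
      { toFun := fun h => Fin.cons 1 h
        map_one' := by
          funext i; refine Fin.cases ?_ (fun j => ?_) i <;> simp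
        map_mul' := fun a b => by
          funext i; refine Fin.cases ?_ (fun j => ?_) i <;> simp }
    let ρ' : (Fin k → ℤˣ) →* End K W := ρ.comp ι
    let s : Fin (k + 1) → ℤˣ := Fin.cons (-1) 1
    set a : End K W := ρ s with ha
    have hss : s * s = 1 := by
      funext i; refine Fin.cases ?_ (fun j => ?_) i <;> simp [s]
    have haa : a * a = 1 := by rw [ha, ← map_mul, hss, map_one]
    have hρa : ∀ h, ρ' h * a = a * ρ' h := by
      intro h
      change ρ (ι h) * ρ s = ρ s * ρ (ι h)
      rw [← map_mul, ← map_mul, mul_comm]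
    have hcons : ∀ h : Fin k → ℤˣ, ρ (Fin.cons (-1) h : Fin (k + 1) → ℤˣ) = ρ' h * a := by
      intro h
      change _ = ρ (ι h) * ρ s
      rw [← map_mul]
      congr 1
      funext i; refine Fin.cases ?_ (fun j => ?_) i <;> simp [s, ι]
    have haE : a * E = E * a := hcomm s
    set e : End K W := (2⁻¹ : K) • (1 + a) with he
    have hee : e * e = e := by
      rw [he, smul_mul_assoc, mul_smul_comm, smul_smul]
      have : (1 + a) * (1 + a) = (2 : K) • (1 + a) := by
        rw [mul_add, add_mul, add_mul, one_mul, mul_one, one_mul, haa, two_smul]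
        abel
      rw [this, smul_smul]
      congr 1
      field_simp
    have h1e : 1 - e = (2⁻¹ : K) • (1 - a) := by
      have : (1 : End K W) = (2⁻¹ : K) • ((2 : K) • 1) := by
        rw [smul_smul, inv_mul_cancel₀ h2, one_smul]
      rw [he]
      nth_rewrite 1 [this]
      rw [← smul_sub, two_smul]
      congr 1
      abel
    have heE : e * E = E * e := by
      rw [he, smul_mul_assoc, mul_smul_comm, add_mul, mul_add, one_mul, mul_one, haE]
    have haep : a * e = e := by
      rw [he, mul_smul_comm, mul_add, mul_one, haa, add_comm]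
    have haem : a * (1 - e) = -(1 - e) := by
      rw [h1e, mul_smul_comm, mul_sub, mul_one, haa, ← smul_neg, neg_sub]
    have hρe : ∀ h, ρ' h * e = e * ρ' h := by
      intro h
      rw [he, smul_mul_assoc, mul_smul_comm, add_mul, mul_add, one_mul, mul_one, hρa]
    have hEp : (e * E) * (e * E) = e * E := by
      rw [mul_assoc, ← mul_assoc E e E, ← heE, mul_assoc e E E, hE, ← mul_assoc, hee]
    have hρE : ∀ h, ρ' h * E = E * ρ' h := fun h => hcomm _
    have hcp : ∀ h, ρ' h * (e * E) = (e * E) * ρ' h := by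
      intro h
      rw [← mul_assoc, hρe, mul_assoc, hρE, mul_assoc]
    have hih := ih ρ' (e * E) hEp hcp
    -- the sum
    have hsum : ∑ g, rk ((ρ g - 1) * E) =
        ∑ h : Fin k → ℤˣ, (rk ((ρ' h - 1) * E) + rk ((ρ' h * a - 1) * E)) := by
      rw [← (Fin.consEquiv (fun _ => ℤˣ)).sum_comp, Fintype.sum_prod_type,
        show (Finset.univ : Finset ℤˣ) = {1, -1} from rfl, Finset.sum_pair (by decide),
        ← Finset.sum_add_distrib]
      refine Finset.sum_congr rfl ?_
      intro h _
      congr 2
      change (ρ (Fin.cons (-1) h) - 1) * E = _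
      rw [hcons]
    have hterm : ∀ h : Fin k → ℤˣ,
        rk ((ρ' h - 1) * E) + rk ((ρ' h * a - 1) * E) ≤
          2 * rk ((ρ' h - 1) * (e * E)) + rk ((1 - e) * E) := by
      intro h
      have hdec : E = e * E + (1 - e) * E := by rw [sub_mul, one_mul]; abel
      have h1 : (ρ' h - 1) * E = (ρ' h - 1) * (e * E) + (ρ' h - 1) * ((1 - e) * E) := by
        rw [← mul_add, ← hdec]
      have h2' : (ρ' h * a - 1) * E = (ρ' h - 1) * (e * E) + (-ρ' h - 1) * ((1 - e) * E) := by
        have h3 : (ρ' h * a - 1) * E = (ρ' h * a - 1) * (e * E) +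
            (ρ' h * a - 1) * ((1 - e) * E) := by
          rw [← mul_add, ← hdec]
        rw [h3]
        congr 1
        · rw [sub_mul, sub_mul, mul_assoc, ← mul_assoc a e E, haep]
        · have haF : a * ((1 - e) * E) = -((1 - e) * E) := by
            rw [← mul_assoc, haem, neg_mul]
          generalize (1 - e) * E = F at haF
          rw [sub_mul, sub_mul, mul_assoc, haF, neg_mul, mul_neg]
      have h4 : rk ((ρ' h - 1) * ((1 - e) * E)) + rk ((-ρ' h - 1) * ((1 - e) * E)) ≤
          rk ((1 - e) * E) := by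
        set P : End K W := (2⁻¹ : K) • (1 - ρ' h) with hP
        have hr2 : ρ' h * ρ' h = 1 := by
          rw [← map_mul]
          have : h * h = 1 := by funext i; exact Int.units_mul_self _
          rw [this, map_one]
        have hPP : P * P = P := by
          rw [hP, smul_mul_assoc, mul_smul_comm, smul_smul]
          have : (1 - ρ' h) * (1 - ρ' h) = (2 : K) • (1 - ρ' h) := by
            rw [mul_sub, sub_mul, sub_mul, one_mul, mul_one, one_mul, hr2, two_smul]
            abel
          rw [this, smul_smul]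
          congr 1
          field_simp
        have h1P : 1 - P = (2⁻¹ : K) • (1 + ρ' h) := by
          have : (1 : End K W) = (2⁻¹ : K) • ((2 : K) • 1) := by
            rw [smul_smul, inv_mul_cancel₀ h2, one_smul]
          rw [hP]
          nth_rewrite 1 [this]
          rw [← smul_sub, two_smul]
          congr 1
          abel
        have hPE : P * ((1 - e) * E) = ((1 - e) * E) * P := by
          have h5 : ρ' h * ((1 - e) * E) = ((1 - e) * E) * ρ' h := by
            rw [← mul_assoc, mul_sub, mul_one, hρe, sub_mul, sub_mul, one_mul, hρE, sub_mul,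
              mul_assoc, hρE, mul_assoc]
          rw [hP, smul_mul_assoc, mul_smul_comm, sub_mul, mul_sub, one_mul, mul_one, h5]
        have h6 := rk_split hPP hPE
        have h7 : (ρ' h - 1) * ((1 - e) * E) = (-2 : K) • (P * ((1 - e) * E)) := by
          rw [hP, smul_mul_assoc, smul_smul]
          have : (-2 : K) * 2⁻¹ = -1 := by field_simp
          rw [this, neg_one_smul, ← neg_mul, neg_sub]
        have h8 : (-ρ' h - 1) * ((1 - e) * E) = (-2 : K) • ((1 - P) * ((1 - e) * E)) := by
          rw [h1P, smul_mul_assoc, smul_smul]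
          have : (-2 : K) * 2⁻¹ = -1 := by field_simp
          rw [this, neg_one_smul, ← neg_mul]
          congr 1
          abel
        rw [h7, h8]
        exact (add_le_add (rk_smul_le _ _) (rk_smul_le _ _)).trans h6
      have h9 : rk ((ρ' h - 1) * E) ≤ rk ((ρ' h - 1) * (e * E)) +
          rk ((ρ' h - 1) * ((1 - e) * E)) := by
        rw [h1]; exact rk_add_le _ _
      have h10 : rk ((ρ' h * a - 1) * E) ≤ rk ((ρ' h - 1) * (e * E)) +
          rk ((-ρ' h - 1) * ((1 - e) * E)) := by
        rw [h2']; exact rk_add_le _ _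
      omega
    have hsplit := rk_split hee heE
    have hcard : Fintype.card (Fin k → ℤˣ) = 2 ^ k := by simp
    calc 2 * ∑ g, rk ((ρ g - 1) * E)
        = 2 * ∑ h : Fin k → ℤˣ, (rk ((ρ' h - 1) * E) + rk ((ρ' h * a - 1) * E)) := by rw [hsum]
      _ ≤ 2 * ∑ h : Fin k → ℤˣ, (2 * rk ((ρ' h - 1) * (e * E)) + rk ((1 - e) * E)) :=
          Nat.mul_le_mul_left _ (Finset.sum_le_sum fun h _ => hterm h)
      _ = 2 * (2 * ∑ h : Fin k → ℤˣ, rk ((ρ' h - 1) * (e * E))) +
            2 * (2 ^ k * rk ((1 - e) * E)) := by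
          rw [Finset.sum_add_distrib, ← Finset.mul_sum, Finset.sum_const, Finset.card_univ, hcard,
            smul_eq_mul]
          ring
      _ ≤ 2 * (2 ^ k * rk (e * E)) + 2 * (2 ^ k * rk ((1 - e) * E)) := by
          have := Nat.mul_le_mul_left 2 hih
          omega
      _ = 2 ^ (k + 1) * (rk (e * E) + rk ((1 - e) * E)) := by ring
      _ ≤ 2 ^ (k + 1) * rk E := Nat.mul_le_mul_left _ hsplit

omit [FiniteDimensional K W] in
lemma rk_one : rk (1 : End K W) = finrank K W := by
  unfold rk
  have : LinearMap.range (1 : End K W) = ⊤ := LinearMap.range_id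
  rw [this, finrank_top]

/-- For a linear action of an elementary abelian 2-group of rank `k` the sum of the ranks of the
`ρ(g) - 1` is at most `2^(k-1) dim`. -/
theorem avg (k : ℕ) (ρ : (Fin k → ℤˣ) →* End K W) :
    2 * ∑ g, rk (ρ g - 1) ≤ 2 ^ k * finrank K W := by
  by_cases h2 : (2 : K) = 0
  · have hg : ∀ g, 2 * rk (ρ g - 1) ≤ finrank K W := by
      intro g
      have hr2 : ρ g * ρ g = 1 := by
        rw [← map_mul]
        have : g * g = 1 := by funext i; exact Int.units_mul_self _
        rw [this, map_one]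
      have h0 : (ρ g - 1) * (ρ g - 1) = 0 := by
        have h3 : (2 : K) • ρ g = 0 := by rw [h2, zero_smul]
        have h4 : (2 : K) • (1 : End K W) = 0 := by rw [h2, zero_smul]
        rw [mul_sub, sub_mul, sub_mul, one_mul, mul_one, one_mul, hr2]
        rw [two_smul] at h3 h4
        have : (1 : End K W) - ρ g - (ρ g - 1) = (1 + 1) - (ρ g + ρ g) := by abel
        rw [this, h3, h4, sub_zero]
      have h5 : LinearMap.range (ρ g - 1) ≤ LinearMap.ker (ρ g - 1) := by
        rintro _ ⟨x, rfl⟩
        rw [LinearMap.mem_ker, ← Module.End.mul_apply, h0, LinearMap.zero_apply]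
      have h6 := Submodule.finrank_mono h5
      have h7 := rk_add_ker (ρ g - 1)
      unfold rk at h7 ⊢
      omega
    have hcard : Fintype.card (Fin k → ℤˣ) = 2 ^ k := by simp
    calc 2 * ∑ g, rk (ρ g - 1) = ∑ g, 2 * rk (ρ g - 1) := by rw [Finset.mul_sum]
      _ ≤ ∑ g : Fin k → ℤˣ, finrank K W := Finset.sum_le_sum fun g _ => hg g
      _ = 2 ^ k * finrank K W := by
          rw [Finset.sum_const, Finset.card_univ, hcard, smul_eq_mul]
  · have := avg_odd h2 k ρ 1 (one_mul 1) (fun g => by rw [mul_one, one_mul])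
    simpa [rk_one] using this

/-- some nontrivial element moves little -/
theorem exists_small (k : ℕ) (hk : 1 ≤ k) (ρ : (Fin k → ℤˣ) →* End K W) :
    ∃ g, g ≠ 1 ∧ 2 * (2 ^ k - 1) * rk (ρ g - 1) ≤ 2 ^ k * finrank K W := by
  classical
  by_contra hcon
  push Not at hcon
  have hcard : Fintype.card (Fin k → ℤˣ) = 2 ^ k := by simp
  have h1 : ∑ g, rk (ρ g - 1) = ∑ g ∈ Finset.univ.erase (1 : Fin k → ℤˣ), rk (ρ g - 1) := by
    rw [← Finset.add_sum_erase Finset.univ _ (Finset.mem_univ (1 : Fin k → ℤˣ)), map_one, sub_self,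
      rk_zero, zero_add]
  have h2 := avg k ρ
  rw [h1] at h2
  have hc : (Finset.univ.erase (1 : Fin k → ℤˣ)).card = 2 ^ k - 1 := by
    rw [Finset.card_erase_of_mem (Finset.mem_univ _), Finset.card_univ, hcard]
  have hpos : 0 < 2 ^ k - 1 := by
    have : 2 ≤ 2 ^ k := by
      calc 2 = 2 ^ 1 := by norm_num
        _ ≤ 2 ^ k := Nat.pow_le_pow_right (by norm_num) hk
    omega
  have hne : (Finset.univ.erase (1 : Fin k → ℤˣ)).Nonempty := by
    rw [← Finset.card_pos, hc]; exact hpos
  have h3 : (2 ^ k - 1) * (2 ^ k * finrank K W) <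
      ∑ g ∈ Finset.univ.erase (1 : Fin k → ℤˣ), 2 * (2 ^ k - 1) * rk (ρ g - 1) := by
    rw [← hc, ← smul_eq_mul (a := Finset.card _), ← Finset.sum_const]
    refine Finset.sum_lt_sum_of_nonempty hne ?_
    intro g hg
    have := hcon g (Finset.ne_of_mem_erase hg)
    rw [hc]
    exact this
  rw [← Finset.mul_sum] at h3
  have h4 : 2 * (2 ^ k - 1) * ∑ g ∈ Finset.univ.erase (1 : Fin k → ℤˣ), rk (ρ g - 1) =
      (2 ^ k - 1) * (2 * ∑ g ∈ Finset.univ.erase (1 : Fin k → ℤˣ), rk (ρ g - 1)) := by ring
  rw [h4] at h3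
  exact absurd h2 (not_le.2 (lt_of_mul_lt_mul_left h3 (Nat.zero_le _)))

end Pool.Agent.W336.LS
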