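import Pool.Agent.W336.LS.Involutions

set_option autoImplicit false

namespace Pool.Agent.W336.LS

open Module

universe u v w

/-- Amplification: a functorial construction on finite-dimensional spaces turning elements at
distance at least `c` from `1` into elements all of whose eigenspaces are small. -/
def Amp (K : Type u) [Field K] (c L M : ℝ) : Prop :=
  ∀ (V : Type u) [AddCommGroup V] [Module K V] [FiniteDimensional K V] [Nontrivial V],
    ∃ (V' : Type u) (_ : AddCommGroup V') (_ : Module K V') (_ : FiniteDimensional K V')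
      (_ : Nontrivial V') (T : (End K V)ˣ →* (End K V')ˣ),
      (∀ a b, dd (T a : End K V') (T b : End K V') ≤ L * dd (a : End K V) (b : End K V)) ∧
      (∀ u : (End K V)ˣ, c ≤ dd (u : End K V) 1 → ∀ t : K,
        (finrank K (LinearMap.ker ((T u : End K V') - algebraMap K (End K V') t)) : ℝ) ≤
          M * finrank K V')

variable {K : Type u} [Field K]

lemma dd_nonneg {V : Type v} [AddCommGroup V] [Module K V] (a b : End K V) : 0 ≤ dd a b := by
  unfold dd; positivity

lemma amp_zero (c : ℝ) (hc : c ≤ 1) : Amp K c 1 (1 - c / 2) := by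
  intro V _ _ _ _
  refine ⟨V × V, inferInstance, inferInstance, inferInstance, inferInstance, T0 V, ?_, ?_⟩
  · intro a b
    unfold dd
    have hn : (0 : ℝ) < finrank K V := by exact_mod_cast Module.finrank_pos
    have h1 := rk_T0_sub a b
    have h2 : (rk ((T0 V a : End K (V × V)) - (T0 V b : End K (V × V))) : ℝ) ≤
        rk ((a : End K V) - (b : End K V)) := by exact_mod_cast h1
    rw [Module.finrank_prod, one_mul]
    push_cast
    rw [div_le_div_iff₀ (by linarith) hn]
    have h3 : (0 : ℝ) ≤ rk ((a : End K V) - (b : End K V)) := Nat.cast_nonneg _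
    nlinarith
  · intro u hu t
    have hn : (0 : ℝ) < finrank K V := by exact_mod_cast Module.finrank_pos
    have h1 := ker_T0 u t
    have h2 : (finrank K (LinearMap.ker ((T0 V u : End K (V × V)) -
        algebraMap K (End K (V × V)) t)) : ℝ) ≤
      finrank K (LinearMap.ker ((u : End K V) - algebraMap K (End K V) t)) +
        finrank K (LinearMap.ker ((1 : End K V) - algebraMap K (End K V) t)) := by
      exact_mod_cast h1
    rw [Module.finrank_prod]
    push_cast
    by_cases ht : t = 1
    · have h3 : (finrank K (LinearMap.ker ((1 : End K V) - algebraMap K (End K V) t)) : ℝ) ≤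
          finrank K V := by exact_mod_cast Submodule.finrank_le _
      have h4 := rk_add_ker ((u : End K V) - 1)
      have h5 : (rk ((u : End K V) - 1) : ℝ) +
          finrank K (LinearMap.ker ((u : End K V) - 1)) = finrank K V := by exact_mod_cast h4
      have h6 : c * finrank K V ≤ rk ((u : End K V) - 1) := by
        unfold dd at hu
        rwa [le_div_iff₀ hn] at hu
      subst ht
      have e1 : algebraMap K (End K V) (1 : K) = 1 := map_one _
      have e2 : algebraMap K (End K (V × V)) (1 : K) = 1 := map_one _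
      rw [e1, e2] at h2
      rw [e1] at h3
      rw [e2]
      linarith
    · rw [ker_one_sub ht] at h2
      have h3 : (finrank K (LinearMap.ker ((u : End K V) - algebraMap K (End K V) t)) : ℝ) ≤
          finrank K V := by exact_mod_cast Submodule.finrank_le _
      push_cast at h2
      nlinarith

lemma amp_succ {c L M : ℝ} (hM : 1 / 2 ≤ M) (h : Amp K c L M) :
    Amp K c (2 * L) (M ^ 2 + (1 - M) ^ 2) := by
  intro V _ _ _ _
  obtain ⟨V', i1, i2, i3, i4, T, hT1, hT2⟩ := h V
  have hn : (0 : ℝ) < finrank K V' := by exact_mod_cast Module.finrank_pos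
  have hfe : finrank K (End K V') = finrank K V' * finrank K V' := by
    change finrank K (V' →ₗ[K] V') = _
    rw [Module.finrank_linearMap]
  refine ⟨End K V', inferInstance, inferInstance, inferInstance, inferInstance, (Ad V').comp T,
    ?_, ?_⟩
  · intro a b
    have h1 := rk_Ad_sub (T a) (T b)
    have h2 : (rk (((Ad V' (T a) : (End K (End K V'))ˣ) : End K (End K V')) -
        ((Ad V' (T b) : (End K (End K V'))ˣ) : End K (End K V'))) : ℝ) ≤
        2 * finrank K V' * rk ((T a : End K V') - (T b : End K V')) := by exact_mod_cast h1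
    have h3 : dd (((Ad V').comp T a : (End K (End K V'))ˣ) : End K (End K V'))
        (((Ad V').comp T b : (End K (End K V'))ˣ) : End K (End K V')) ≤
        2 * dd (T a : End K V') (T b : End K V') := by
      unfold dd
      rw [hfe, MonoidHom.comp_apply, MonoidHom.comp_apply]
      push_cast
      rw [div_le_iff₀ (by positivity)]
      calc _ ≤ _ := h2
        _ = 2 * ((rk ((T a : End K V') - (T b : End K V')) : ℝ) / finrank K V') *
            (finrank K V' * finrank K V') := by field_simp
    have h4 := hT1 a b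
    linarith
  · intro u hu t
    have h1 := hT2 u hu
    rw [MonoidHom.comp_apply]
    by_cases ht : t = 0
    · rw [ht, ker_Ad_zero (Ad V' (T u))]
      push_cast
      positivity
    · have h2 := ker_Ad (T u) ht (finrank K V') rfl M hM h1
      refine h2.trans (le_of_eq ?_)
      rw [hfe]; push_cast; ring

/-- the iterated constants -/
lemma amp_iter (c : ℝ) (hc : c ≤ 1) (k : ℕ) :
    Amp K c (2 ^ k) (1 / 2 + (1 - c) ^ (2 ^ k) / 2) := by
  induction k with
  | zero =>
    have := amp_zero (K := K) c hc
    have h1 : 1 / 2 + (1 - c) ^ (2 ^ 0) / 2 = 1 - c / 2 := by norm_num; ring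
    rw [h1, pow_zero]
    exact this
  | succ k ih =>
    have h0 : 0 ≤ (1 - c) ^ (2 ^ k) := pow_nonneg (by linarith) _
    have := amp_succ (by linarith) ih
    have h1 : (1 / 2 + (1 - c) ^ 2 ^ k / 2) ^ 2 + (1 - (1 / 2 + (1 - c) ^ 2 ^ k / 2)) ^ 2 =
        1 / 2 + (1 - c) ^ (2 ^ (k + 1)) / 2 := by
      have : (1 - c) ^ (2 ^ (k + 1)) = ((1 - c) ^ (2 ^ k)) ^ 2 := by
        rw [← pow_mul]; congr 1
      rw [this]; ring
    rw [h1] at this
    rw [pow_succ, mul_comm ((2 : ℝ) ^ k) 2]
    exact this

/-- For `0 < c ≤ 1` and `η > 0` there is an amplification with all distances at least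
`1/2 - η`. -/
lemma exists_amp (c : ℝ) (hc0 : 0 < c) (hc : c ≤ 1) (η : ℝ) (hη : 0 < η) :
    ∃ L : ℝ, 0 < L ∧ ∀ (V : Type u) [AddCommGroup V] [Module K V] [FiniteDimensional K V]
      [Nontrivial V], ∃ (V' : Type u) (_ : AddCommGroup V') (_ : Module K V')
      (_ : FiniteDimensional K V') (_ : Nontrivial V') (T : (End K V)ˣ →* (End K V')ˣ),
      (∀ a b, dd (T a : End K V') (T b : End K V') ≤ L * dd (a : End K V) (b : End K V)) ∧
      (∀ a b : (End K V)ˣ, c ≤ dd (a : End K V) (b : End K V) →
        1 / 2 - η ≤ dd (T a : End K V') (T b : End K V')) := by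
  obtain ⟨k, hk⟩ : ∃ k : ℕ, (1 - c) ^ k < 2 * η :=
    exists_pow_lt_of_lt_one (by linarith) (by linarith)
  have hk2 : (1 - c) ^ (2 ^ k) < 2 * η := by
    refine lt_of_le_of_lt ?_ hk
    exact pow_le_pow_of_le_one (by linarith) (by linarith) (Nat.lt_two_pow_self).le
  refine ⟨2 ^ k, by positivity, ?_⟩
  intro V _ _ _ _
  obtain ⟨V', i1, i2, i3, i4, T, hT1, hT2⟩ := amp_iter (K := K) c hc k V
  refine ⟨V', i1, i2, i3, i4, T, hT1, ?_⟩
  intro a b hab
  have hn : (0 : ℝ) < finrank K V' := by exact_mod_cast Module.finrank_pos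
  have h1 : dd (((b⁻¹ * a : (End K V)ˣ) : End K V)) 1 = dd (a : End K V) (b : End K V) := by
    unfold dd
    have : ((b⁻¹ * a : (End K V)ˣ) : End K V) - 1 =
        ((b⁻¹ : (End K V)ˣ) : End K V) * ((a : End K V) - (b : End K V)) := by
      rw [mul_sub, Units.val_mul, Units.inv_mul]
    rw [this, rk_unit_mul]
  have h1' : dd (((T b)⁻¹ * T a : (End K V')ˣ) : End K V') 1 =
      dd (T a : End K V') (T b : End K V') := by
    unfold dd
    have : (((T b)⁻¹ * T a : (End K V')ˣ) : End K V') - 1 =
        (((T b)⁻¹ : (End K V')ˣ) : End K V') * ((T a : End K V') - (T b : End K V')) := by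
      rw [mul_sub, Units.val_mul, Units.inv_mul]
    rw [this, rk_unit_mul]
  have h2 := hT2 (b⁻¹ * a) (by rw [h1]; exact hab) 1
  rw [map_mul, map_inv, map_one] at h2
  rw [← h1']
  have h4 := rk_add_ker ((((T b)⁻¹ * T a : (End K V')ˣ) : End K V') - 1)
  have h5 : (rk ((((T b)⁻¹ * T a : (End K V')ˣ) : End K V') - 1) : ℝ) +
      finrank K (LinearMap.ker ((((T b)⁻¹ * T a : (End K V')ˣ) : End K V') - 1)) =
        finrank K V' := by exact_mod_cast h4
  unfold dd
  rw [le_div_iff₀ hn]
  nlinarith

/-- passing to matrices -/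
noncomputable def toMat {V : Type v} [AddCommGroup V] [Module K V] {n : ℕ}
    (b : Basis (Fin n) K V) : (End K V)ˣ ≃* GL (Fin n) K :=
  Units.mapEquiv (LinearMap.toMatrixAlgEquiv b).toMulEquiv

lemma toMat_rank {V : Type v} [AddCommGroup V] [Module K V] {n : ℕ} (b : Basis (Fin n) K V)
    (x y : (End K V)ˣ) :
    ((toMat b x : Matrix (Fin n) (Fin n) K) - (toMat b y : Matrix (Fin n) (Fin n) K)).rank =
      rk ((x : End K V) - (y : End K V)) := by
  have h : (toMat b x : Matrix (Fin n) (Fin n) K) - (toMat b y : Matrix (Fin n) (Fin n) K) =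
      LinearMap.toMatrix b b ((x : End K V) - (y : End K V)) := by
    rw [map_sub]; rfl
  rw [h, Matrix.rank_eq_finrank_range_toLin _ b b, Matrix.toLin_toMatrix]
  rfl

end Pool.Agent.W336.LS
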