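import Mathlib

set_option autoImplicit false

/-!
# Cyclic decomposition of an endomorphism and the dimension of spaces of intertwiners
-/

namespace Pool.Agent.W336.LS

open Polynomial Module

universe u v

variable {K : Type u} [Field K]

/-- Primary cyclic decomposition of an endomorphism, in the form needed here. -/
theorem exists_cyclic {W : Type v} [AddCommGroup W] [Module K W] [FiniteDimensional K W]
    (g : W →ₗ[K] W) :
    ∃ (ι : Type u) (_ : Fintype ι) (p : ι → K[X]) (e : ι → ℕ) (x : ι → W),
      (∀ i, Irreducible (p i)) ∧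
      (∀ i, aeval g (p i ^ e i) (x i) = 0) ∧
      (∀ w : W, ∃ r : ι → K[X], w = ∑ i, aeval g (r i) (x i)) ∧
      (∑ i, e i * (p i).natDegree = finrank K W) ∧
      (∀ (c : K) (S : Finset ι), (∀ i ∈ S, 1 ≤ e i ∧ (p i).natDegree = 1 ∧ (p i).IsRoot c) →
        S.card ≤ finrank K (LinearMap.ker (g - algebraMap K (End K W) c))) := by
  classical
  have htor : Module.IsTorsion K[X] (AEval' g) := by
    intro w
    obtain ⟨q, hq0, hq⟩ : ∃ q : K[X], q ≠ 0 ∧ aeval g q = 0 :=
      ⟨minpoly K g, minpoly.ne_zero (Algebra.IsIntegral.isIntegral g), minpoly.aeval K g⟩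
    refine ⟨⟨q, mem_nonZeroDivisors_of_ne_zero hq0⟩, ?_⟩
    change q • w = 0
    apply (AEval'.of g).symm.injective
    rw [AEval.of_symm_smul, hq, zero_smul, map_zero]
  obtain ⟨ι, fι, p, hp, e, ⟨E0⟩⟩ := Module.equiv_directSum_of_isTorsion htor
  let E : AEval' g ≃ₗ[K[X]] (∀ i, K[X] ⧸ Submodule.span K[X] {p i ^ e i}) :=
    E0.trans (DirectSum.linearEquivFunOnFintype K[X] ι _)
  let one' : ∀ i, K[X] ⧸ Submodule.span K[X] {p i ^ e i} := fun i => Submodule.Quotient.mk 1
  let x' : ι → AEval' g := fun i => E.symm (Pi.single i (one' i))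
  let x : ι → W := fun i => (AEval'.of g).symm (x' i)
  have hsm : ∀ (q : K[X]) (m : AEval' g), (AEval'.of g).symm (q • m) =
      aeval g q ((AEval'.of g).symm m) := by
    intro q m
    rw [AEval.of_symm_smul]; rfl
  have hmk : ∀ i (q : K[X]), q • (Pi.single i (one' i) :
      ∀ i, K[X] ⧸ Submodule.span K[X] {p i ^ e i}) =
      Pi.single i (Submodule.Quotient.mk q) := by
    intro i q
    rw [← Pi.single_smul]
    congr 1
    change q • Submodule.Quotient.mk 1 = _
    rw [← Submodule.Quotient.mk_smul, smul_eq_mul, mul_one]
  refine ⟨ι, fι, p, e, x, hp, ?_, ?_, ?_, ?_⟩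
  · intro i
    change aeval g (p i ^ e i) ((AEval'.of g).symm (x' i)) = 0
    rw [← hsm]
    have : (p i ^ e i) • x' i = 0 := by
      change (p i ^ e i) • E.symm (Pi.single i (one' i)) = 0
      rw [← map_smul, hmk]
      have h0 : (Submodule.Quotient.mk (p i ^ e i) : K[X] ⧸ Submodule.span K[X] {p i ^ e i}) = 0 := by
        rw [Submodule.Quotient.mk_eq_zero]
        exact Submodule.mem_span_singleton_self _
      rw [h0, Pi.single_zero, map_zero]
    rw [this, map_zero]
  · intro w
    have hsurj : ∀ i, ∃ r : K[X], (Submodule.Quotient.mk r :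
        K[X] ⧸ Submodule.span K[X] {p i ^ e i}) = E (AEval'.of g w) i := by
      intro i
      exact Submodule.Quotient.mk_surjective _ _
    choose r hr using hsurj
    refine ⟨r, ?_⟩
    apply (AEval'.of g).injective
    apply E.injective
    have h1 : ∀ i, AEval'.of g (aeval g (r i) (x i)) = r i • x' i := by
      intro i
      apply (AEval'.of g).symm.injective
      rw [hsm, LinearEquiv.symm_apply_apply]
    rw [map_sum]
    simp_rw [h1]
    rw [map_sum]
    have h2 : ∀ i, E (r i • x' i) = Pi.single i (Submodule.Quotient.mk (r i)) := by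
      intro i
      rw [map_smul]
      change r i • E (E.symm (Pi.single i (one' i))) = _
      rw [LinearEquiv.apply_symm_apply, hmk]
    simp_rw [h2]
    ext j
    rw [Finset.sum_apply]
    rw [Finset.sum_eq_single j]
    · rw [Pi.single_eq_same, hr]
    · intro b _ hb
      rw [Pi.single_eq_of_ne hb.symm]
    · intro h; exact absurd (Finset.mem_univ j) h
  · have h1 : finrank K W = finrank K (AEval' g) := LinearEquiv.finrank_eq (AEval'.of g)
    have h2 : finrank K (AEval' g) =
        finrank K (∀ i, K[X] ⧸ Submodule.span K[X] {p i ^ e i}) :=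
      LinearEquiv.finrank_eq (E.restrictScalars K)
    have hfin : ∀ i, Module.Finite K (K[X] ⧸ Submodule.span K[X] {p i ^ e i}) := by
      intro i
      have hne : p i ^ e i ≠ 0 := pow_ne_zero _ (hp i).ne_zero
      exact PowerBasis.finite (AdjoinRoot.powerBasis hne)
    rw [h1, h2, Module.finrank_pi_fintype]
    refine Finset.sum_congr rfl ?_
    intro i _
    have h3 := finrank_quotient_span_eq_natDegree (K := K) (f := p i ^ e i)
    rw [natDegree_pow] at h3
    exact h3.symm
  · intro c S hS
    -- the eigenvectors
    let y : ι → W := fun i => aeval g (p i ^ (e i - 1)) (x i)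
    have hy : ∀ i ∈ S, y i ∈ LinearMap.ker (g - algebraMap K (End K W) c) := by
      intro i hi
      obtain ⟨h1, h2, h3⟩ := hS i hi
      have hpi : p i = C (p i).leadingCoeff * (X - C c) := by
        have hdvd : (X - C c) ∣ p i := dvd_iff_isRoot.2 h3
        obtain ⟨q, hq⟩ := hdvd
        have hq0 : q ≠ 0 := by
          rintro rfl
          rw [mul_zero] at hq
          exact (hp i).ne_zero hq
        have hd : q.natDegree = 0 := by
          have := congrArg natDegree hq
          rw [natDegree_mul (X_sub_C_ne_zero c) hq0, natDegree_X_sub_C, h2] at this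
          omega
        obtain ⟨a, ha⟩ := natDegree_eq_zero.1 hd
        rw [← ha] at hq
        have hl : (p i).leadingCoeff = a := by
          rw [hq, leadingCoeff_mul, leadingCoeff_X_sub_C, one_mul, leadingCoeff_C]
        rw [hl]
        rw [hq, mul_comm]
      have hlc : (p i).leadingCoeff ≠ 0 := leadingCoeff_ne_zero.2 (hp i).ne_zero
      have h4 : aeval g (p i) (y i) = 0 := by
        change aeval g (p i) (aeval g (p i ^ (e i - 1)) (x i)) = 0
        rw [← Module.End.mul_apply, ← map_mul, ← pow_succ']
        have : e i - 1 + 1 = e i := by omega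
        rw [this]
        change aeval g (p i ^ e i) ((AEval'.of g).symm (x' i)) = 0
        rw [← hsm]
        have : (p i ^ e i) • x' i = 0 := by
          change (p i ^ e i) • E.symm (Pi.single i (one' i)) = 0
          rw [← map_smul, hmk]
          have h0 : (Submodule.Quotient.mk (p i ^ e i) :
              K[X] ⧸ Submodule.span K[X] {p i ^ e i}) = 0 := by
            rw [Submodule.Quotient.mk_eq_zero]
            exact Submodule.mem_span_singleton_self _
          rw [h0, Pi.single_zero, map_zero]
        rw [this, map_zero]
      rw [hpi, map_mul, aeval_C, map_sub, aeval_X, aeval_C, Module.End.mul_apply,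
        Module.algebraMap_end_apply] at h4
      rw [LinearMap.mem_ker]
      exact (smul_eq_zero.1 h4).resolve_left hlc
    have hli : LinearIndependent K (fun i : S => (⟨y i, hy i i.2⟩ :
        LinearMap.ker (g - algebraMap K (End K W) c))) := by
      rw [Fintype.linearIndependent_iff]
      intro a ha i
      have ha' : ∑ j : S, a j • y j = 0 := by
        have := congrArg Subtype.val ha
        simpa using this
      have h5 : ∀ j : ι, AEval'.of g (y j) = (p j ^ (e j - 1)) • x' j := by
        intro j
        apply (AEval'.of g).symm.injective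
        rw [hsm, LinearEquiv.symm_apply_apply]
      have h6 : ∀ j : ι, E (AEval'.of g (y j)) =
          Pi.single j (Submodule.Quotient.mk (p j ^ (e j - 1))) := by
        intro j
        rw [h5, map_smul]
        change _ • E (E.symm (Pi.single j (one' j))) = _
        rw [LinearEquiv.apply_symm_apply, hmk]
      have h7 : ∑ j : S, a j • E (AEval'.of g (y j)) = 0 := by
        have := congrArg (fun w => E (AEval'.of g w)) ha'
        simp only [map_sum, map_smul, map_zero] at this
        rw [← this]
        refine Finset.sum_congr rfl ?_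
        intro j _
        exact ((E.restrictScalars K).map_smul (a j) _).symm
      have h8 := congrFun h7 (i : ι)
      rw [Finset.sum_apply, Finset.sum_eq_single i] at h8
      · rw [Pi.smul_apply, h6, Pi.single_eq_same, Pi.zero_apply, smul_eq_zero] at h8
        rcases h8 with h8 | h8
        · exact h8
        · exfalso
          rw [Submodule.Quotient.mk_eq_zero, Submodule.mem_span_singleton] at h8
          obtain ⟨b, hb⟩ := h8
          rw [smul_eq_mul] at hb
          obtain ⟨h1, h2, h3⟩ := hS i i.2
          have hdvd : p i ^ e i ∣ p i ^ (e i - 1) := ⟨b, by rw [← hb, mul_comm]⟩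
          have := (pow_dvd_pow_iff (hp i).ne_zero (hp i).not_isUnit).1 hdvd
          omega
      · intro j _ hj
        rw [Pi.smul_apply, h6, Pi.single_eq_of_ne, smul_zero]
        intro h
        exact hj (Subtype.ext h.symm)
      · intro h; exact absurd (Finset.mem_univ i) h
    have := hli.fintype_card_le_finrank
    simpa using this

end Pool.Agent.W336.LS
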